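import Pool.Agent.Helper54.CR.Proof

/-!
There is a (well-founded) model of ZF with a linearly ordered set `X` such that `CRT(X)` fails and
`RT²_n(X)` holds for all natural numbers `n`.
-/

namespace Pool.Agent.Results.MP_5f5b92_lc.StrictForLinearOrders

open Pool.Agent.Helper9.CRT

theorem result : ∃ (M : Type 1) (_ : Membership M M), Pool.Agent.Helper73.Sym.IsZF M ∧
    WellFounded (fun x y : M => x ∈ y) ∧
    ∃ X R : M, IsLinearOrder R X ∧ ¬ CanonicalRamsey X ∧ ∀ n : M, IsNat n → RT2 n X :=
  Pool.Agent.Helper54.CR.main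

end Pool.Agent.Results.MP_5f5b92_lc.StrictForLinearOrders
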